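import Pool.Agent.H63.Star.Iface

/-!
# C3: if all centred lines are straight then `f` is affine near `0`
-/

namespace Pool.Agent.H16.Star

open Set Filter Topology Pool.Agent.H63.Star
open scoped RealInnerProductSpace

/-- A continuous function is touched from below by a concave paraboloid at points arbitrarily
close to any given point. -/
theorem touch_below {X : Type*} [NormedAddCommGroup X] [InnerProductSpace ℝ X]
    [FiniteDimensional ℝ X] (f : X → ℝ) (hf : Continuous f) (p₀ : X) {r : ℝ} (hr : 0 < r) :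
    ∃ (x₁ n : X) (N η : ℝ), ‖x₁ - p₀‖ < r ∧ 0 < η ∧
      ∀ h : X, ‖h‖ < η → f x₁ + ⟪n, h⟫ - N * ‖h‖ ^ 2 ≤ f (x₁ + h) := by
  have hcpt : IsCompact (Metric.closedBall p₀ r) := isCompact_closedBall p₀ r
  have hne : (Metric.closedBall p₀ r).Nonempty := ⟨p₀, by simp [hr.le]⟩
  obtain ⟨z, hz, hzmin⟩ := hcpt.exists_isMinOn hne hf.continuousOn
  -- `f z` is a lower bound
  set N : ℝ := (f p₀ - f z + 1) / r ^ 2 with hN
  have hzp : f z ≤ f p₀ := hzmin (by simp [hr.le] : p₀ ∈ Metric.closedBall p₀ r)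
  have hNr : N * r ^ 2 = f p₀ - f z + 1 := by
    rw [hN]; field_simp
  obtain ⟨x₁, hx₁, hx₁min⟩ := hcpt.exists_isMinOn hne
    (f := fun p => f p + N * ‖p - p₀‖ ^ 2) (by fun_prop)
  have hlt : ‖x₁ - p₀‖ < r := by
    have h1 : ‖x₁ - p₀‖ ≤ r := by
      have := hx₁
      rwa [Metric.mem_closedBall, dist_eq_norm] at this
    rcases lt_or_eq_of_le h1 with h | h
    · exact h
    · exfalso
      have h2 : f x₁ + N * ‖x₁ - p₀‖ ^ 2 ≤ f p₀ + N * ‖p₀ - p₀‖ ^ 2 :=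
        hx₁min (by simp [hr.le] : p₀ ∈ Metric.closedBall p₀ r)
      rw [h, hNr] at h2
      have h3 : f z ≤ f x₁ := hzmin hx₁
      simp at h2
      linarith
  refine ⟨x₁, -(2 * N) • (x₁ - p₀), N, r - ‖x₁ - p₀‖, hlt, by linarith, ?_⟩
  intro h hh
  have hmem : x₁ + h ∈ Metric.closedBall p₀ r := by
    rw [Metric.mem_closedBall, dist_eq_norm]
    have : x₁ + h - p₀ = (x₁ - p₀) + h := by abel
    rw [this]
    have := norm_add_le (x₁ - p₀) h
    linarith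
  have h2 : f x₁ + N * ‖x₁ - p₀‖ ^ 2 ≤ f (x₁ + h) + N * ‖x₁ + h - p₀‖ ^ 2 := hx₁min hmem
  have h3 : ‖x₁ + h - p₀‖ ^ 2 = ‖x₁ - p₀‖ ^ 2 + 2 * ⟪x₁ - p₀, h⟫ + ‖h‖ ^ 2 := by
    have : x₁ + h - p₀ = (x₁ - p₀) + h := by abel
    rw [this, norm_add_sq_real]
  rw [h3] at h2
  rw [inner_smul_left]
  simp only [conj_trivial]
  nlinarith

theorem flat : FlatStmt := by
  intro X _ _ _ f γ ρ τ₁ w₀ hf hρ hτ₁ hw₀ hγ h0 htrans hstr
  have hw₀n : 0 < ‖w₀‖ := norm_pos_iff.mpr hw₀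
  -- Step 1
  set δ₀ : ℝ := min (ρ / (2 * ‖w₀‖)) (τ₁ / (4 * ‖w₀‖)) with hδ₀
  have hδ₀pos : 0 < δ₀ := by positivity
  obtain ⟨⟨τp, hτp, hτp'⟩, τm, hτm, hτm'⟩ := htrans δ₀ hδ₀pos
  have hδρ : δ₀ * ‖w₀‖ ≤ ρ / 2 := by
    have : δ₀ ≤ ρ / (2 * ‖w₀‖) := min_le_left _ _
    calc δ₀ * ‖w₀‖ ≤ ρ / (2 * ‖w₀‖) * ‖w₀‖ := by gcongr
      _ = ρ / 2 := by field_simp
  have hδτ : δ₀ * ‖w₀‖ ≤ τ₁ / 4 := by
    have : δ₀ ≤ τ₁ / (4 * ‖w₀‖) := min_le_right _ _
    calc δ₀ * ‖w₀‖ ≤ τ₁ / (4 * ‖w₀‖) * ‖w₀‖ := by gcongr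
      _ = τ₁ / 4 := by field_simp
  have hcont : ∀ τ : ℝ, |τ| < δ₀ → ContinuousAt (fun q : X × X => γ (q.1 + τ • q.2) q.2) (0, w₀) := by
    intro τ hτ
    have h1 : ‖τ • w₀‖ < ρ := by
      rw [norm_smul, Real.norm_eq_abs]
      have : |τ| * ‖w₀‖ < δ₀ * ‖w₀‖ := by gcongr
      linarith
    have h2 := hγ (τ • w₀) w₀ h1 hw₀
    have h3 : ContinuousAt (fun q : X × X => (q.1 + τ • q.2, q.2)) ((0 : X), w₀) := by fun_prop
    have h4 : ContinuousAt (fun q : X × X => γ q.1 q.2)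
        ((fun q : X × X => (q.1 + τ • q.2, q.2)) ((0 : X), w₀)) := by
      simpa using h2
    exact ContinuousAt.comp (g := fun q : X × X => γ q.1 q.2)
      (f := fun q : X × X => (q.1 + τ • q.2, q.2)) h4 h3
  have hevp : ∀ᶠ q : X × X in 𝓝 (0, w₀), 0 < γ (q.1 + τp • q.2) q.2 := by
    have := hcont τp hτp
    exact this.eventually (lt_mem_nhds (by simpa using hτp'))
  have hevm : ∀ᶠ q : X × X in 𝓝 (0, w₀), γ (q.1 + τm • q.2) q.2 < 0 := by
    have := hcont τm hτm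
    exact this.eventually (gt_mem_nhds (by simpa using hτm'))
  obtain ⟨ε', hε'pos, hε'⟩ := Metric.eventually_nhds_iff.mp (hevp.and hevm)
  set ε : ℝ := min (min ε' (‖w₀‖ / 2)) (ρ / 4) with hε
  have hεpos : 0 < ε := by positivity
  have hε1 : ε ≤ ε' := (min_le_left _ _).trans (min_le_left _ _)
  have hε2 : ε ≤ ‖w₀‖ / 2 := (min_le_left _ _).trans (min_le_right _ _)
  have hε3 : ε ≤ ρ / 4 := min_le_right _ _
  have key : ∀ x w : X, ‖x‖ < ε → ‖w - w₀‖ < ε →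
      ∃ σ : ℝ, ∀ t : ℝ, |t| * ‖w‖ ≤ τ₁ / 2 → f (x + t • w) = f x + t * σ := by
    intro x w hx hw
    have hwle : ‖w‖ ≤ 3 / 2 * ‖w₀‖ := by
      have : w = (w - w₀) + w₀ := by abel
      calc ‖w‖ = ‖(w - w₀) + w₀‖ := by rw [← this]
        _ ≤ ‖w - w₀‖ + ‖w₀‖ := norm_add_le _ _
        _ ≤ 3 / 2 * ‖w₀‖ := by linarith
    have hwge : ‖w₀‖ / 2 ≤ ‖w‖ := by
      have h1 : w₀ = w - (w - w₀) := by abel
      have : ‖w₀‖ ≤ ‖w‖ + ‖w - w₀‖ := by
        calc ‖w₀‖ = ‖w - (w - w₀)‖ := by rw [← h1]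
          _ ≤ ‖w‖ + ‖w - w₀‖ := norm_sub_le _ _
      linarith
    have hwne : w ≠ 0 := by
      intro h
      rw [h, norm_zero] at hwge
      linarith
    obtain ⟨hp, hm⟩ := @hε' (x, w) (by
      rw [Prod.dist_eq, dist_eq_norm, dist_eq_norm, sub_zero]
      exact max_lt (hx.trans_le hε1) (hw.trans_le hε1))
    simp only at hp hm
    have hball : ∀ β : ℝ, |β| < δ₀ → ‖x + β • w‖ < ρ := by
      intro β hβ
      calc ‖x + β • w‖ ≤ ‖x‖ + ‖β • w‖ := norm_add_le _ _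
        _ = ‖x‖ + |β| * ‖w‖ := by rw [norm_smul, Real.norm_eq_abs]
        _ ≤ ‖x‖ + |β| * (3 / 2 * ‖w₀‖) := by gcongr
        _ ≤ ‖x‖ + δ₀ * (3 / 2 * ‖w₀‖) := by gcongr
        _ < ρ := by nlinarith
    have huIcc : ∀ β ∈ uIcc τm τp, |β| < δ₀ := by
      intro β hβ
      rw [abs_lt] at hτm hτp ⊢
      rcases le_total τm τp with h | h
      · rw [uIcc_of_le h] at hβ
        constructor
        · linarith [hβ.1, hτm.1]
        · linarith [hβ.2, hτp.2]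
      · rw [uIcc_of_ge h] at hβ
        constructor
        · linarith [hβ.1, hτp.1]
        · linarith [hβ.2, hτm.2]
    have hconton : ContinuousOn (fun β : ℝ => γ (x + β • w) w) (uIcc τm τp) := by
      intro β hβ
      have h2 := hγ (x + β • w) w (hball β (huIcc β hβ)) hwne
      have h3 : ContinuousAt (fun β : ℝ => (x + β • w, w)) β := by fun_prop
      have h5 : ContinuousAt (fun β : ℝ => γ (x + β • w) w) β :=
        ContinuousAt.comp (g := fun q : X × X => γ q.1 q.2) (f := fun β : ℝ => (x + β • w, w)) h2 h3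
      exact h5.continuousWithinAt
    have hivt := intermediate_value_uIcc hconton
    have h0mem : (0 : ℝ) ∈ uIcc (γ (x + τm • w) w) (γ (x + τp • w) w) := by
      rw [uIcc_of_le (hm.le.trans hp.le)]
      exact ⟨hm.le, hp.le⟩
    obtain ⟨β, hβmem, hβ⟩ := hivt h0mem
    have hβlt := huIcc β hβmem
    obtain ⟨σ, hσ⟩ := hstr (x + β • w) w (hball β hβlt) hwne hβ
    have hβw : |β| * ‖w‖ ≤ τ₁ / 2 := by
      calc |β| * ‖w‖ ≤ δ₀ * (3 / 2 * ‖w₀‖) := by gcongr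
        _ = 3 / 2 * (δ₀ * ‖w₀‖) := by ring
        _ ≤ 3 / 2 * (τ₁ / 4) := by gcongr
        _ ≤ τ₁ / 2 := by linarith
    refine ⟨σ, ?_⟩
    intro t ht
    have e1 : x + t • w = (x + β • w) + (t - β) • w := by
      rw [sub_smul]; abel
    have e2 : x = (x + β • w) + (-β) • w := by
      rw [neg_smul]; abel
    have b1 : |t - β| * ‖w‖ ≤ τ₁ := by
      calc |t - β| * ‖w‖ ≤ (|t| + |β|) * ‖w‖ := by
            gcongr; exact abs_sub _ _
        _ = |t| * ‖w‖ + |β| * ‖w‖ := by ring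
        _ ≤ τ₁ := by linarith
    have b2 : |(-β)| * ‖w‖ ≤ τ₁ := by
      rw [abs_neg]; linarith
    have g1 := hσ (t - β) b1
    have g2 := hσ (-β) b2
    rw [← e1] at g1
    rw [← e2] at g2
    rw [g1, g2]
    ring
  -- Step 2
  set δ : ℝ := min (τ₁ / (8 * ‖w₀‖)) (ε / (4 * ‖w₀‖)) with hδ
  have hδpos : 0 < δ := by positivity
  have hδ1 : δ * ‖w₀‖ ≤ τ₁ / 8 := by
    have : δ ≤ τ₁ / (8 * ‖w₀‖) := min_le_left _ _
    calc δ * ‖w₀‖ ≤ τ₁ / (8 * ‖w₀‖) * ‖w₀‖ := by gcongr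
      _ = τ₁ / 8 := by field_simp
  have hδ2 : δ * ‖w₀‖ ≤ ε / 4 := by
    have : δ ≤ ε / (4 * ‖w₀‖) := min_le_right _ _
    calc δ * ‖w₀‖ ≤ ε / (4 * ‖w₀‖) * ‖w₀‖ := by gcongr
      _ = ε / 4 := by field_simp
  set r : ℝ := min (ε * δ / 2) (ε / 4) with hr
  have hrpos : 0 < r := by positivity
  obtain ⟨x₁, n, N, η, hx₁, hη, htouch⟩ := touch_below f hf (-(δ • w₀)) hrpos
  have hx₁ε : ‖x₁‖ < ε := by
    have h1 : x₁ = (x₁ - -(δ • w₀)) + -(δ • w₀) := by abel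
    have h2 : ‖x₁‖ ≤ ‖x₁ - -(δ • w₀)‖ + ‖-(δ • w₀)‖ := by
      calc ‖x₁‖ = ‖(x₁ - -(δ • w₀)) + -(δ • w₀)‖ := by rw [← h1]
        _ ≤ _ := norm_add_le _ _
    rw [norm_neg, norm_smul, Real.norm_eq_abs, abs_of_pos hδpos] at h2
    have h3 : r ≤ ε / 4 := min_le_right _ _
    linarith
  -- the slope at `x₁`
  have hslope : ∀ w : X, ‖w - w₀‖ < ε → ∀ t : ℝ, |t| * ‖w‖ ≤ τ₁ / 2 →
      f (x₁ + t • w) = f x₁ + t * ⟪n, w⟫ := by
    intro w hw
    obtain ⟨σ, hσ⟩ := key x₁ w hx₁ε hw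
    suffices hs : σ = ⟪n, w⟫ by
      rw [← hs]; exact hσ
    -- inequality for small `t`
    have hineq : ∀ t : ℝ, |t| * ‖w‖ ≤ τ₁ / 2 → |t| * ‖w‖ < η →
        t * ⟪n, w⟫ - N * (t ^ 2 * ‖w‖ ^ 2) ≤ t * σ := by
      intro t ht1 ht2
      have h1 := htouch (t • w) (by rw [norm_smul, Real.norm_eq_abs]; exact ht2)
      rw [hσ t ht1, inner_smul_right, norm_smul, Real.norm_eq_abs, mul_pow, sq_abs] at h1
      linarith
    have hev : ∀ᶠ t : ℝ in 𝓝 0, |t| * ‖w‖ ≤ τ₁ / 2 ∧ |t| * ‖w‖ < η := by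
      have hc : Continuous (fun t : ℝ => |t| * ‖w‖) := by fun_prop
      have h1 := hc.tendsto 0
      simp only [abs_zero, zero_mul] at h1
      have h2 : (0 : ℝ) < min (τ₁ / 2) η := by positivity
      filter_upwards [h1.eventually (gt_mem_nhds h2)] with t ht
      exact ⟨(ht.trans_le (min_le_left _ _)).le, ht.trans_le (min_le_right _ _)⟩
    apply le_antisymm
    · -- use negative `t`
      have hlim : Tendsto (fun t : ℝ => ⟪n, w⟫ - N * (t * ‖w‖ ^ 2)) (𝓝[<] 0)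
          (𝓝 (⟪n, w⟫ - N * (0 * ‖w‖ ^ 2))) := by
        apply Tendsto.mono_left _ nhdsWithin_le_nhds
        exact Continuous.tendsto (by fun_prop) 0
      simp only [zero_mul, mul_zero, sub_zero] at hlim
      refine ge_of_tendsto hlim ?_
      filter_upwards [hev.filter_mono nhdsWithin_le_nhds, self_mem_nhdsWithin] with t ht ht'
      have ht'' : t < 0 := ht'
      have h1 := hineq t ht.1 ht.2
      have h2 : t * (⟪n, w⟫ - N * (t * ‖w‖ ^ 2)) ≤ t * σ := by linarith [h1]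
      exact (mul_le_mul_left_of_neg ht'').mp h2
    · have hlim : Tendsto (fun t : ℝ => ⟪n, w⟫ - N * (t * ‖w‖ ^ 2)) (𝓝[>] 0)
          (𝓝 (⟪n, w⟫ - N * (0 * ‖w‖ ^ 2))) := by
        apply Tendsto.mono_left _ nhdsWithin_le_nhds
        exact Continuous.tendsto (by fun_prop) 0
      simp only [zero_mul, mul_zero, sub_zero] at hlim
      refine le_of_tendsto hlim ?_
      filter_upwards [hev.filter_mono nhdsWithin_le_nhds, self_mem_nhdsWithin] with t ht ht'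
      have ht'' : 0 < t := ht'
      have h1 := hineq t ht.1 ht.2
      have h2 : t * (⟪n, w⟫ - N * (t * ‖w‖ ^ 2)) ≤ t * σ := by linarith [h1]
      exact (mul_le_mul_iff_right₀ ht'').mp h2
  have haff : ∀ x : X, ‖x‖ < ε * δ / 2 → f x = f x₁ + ⟪n, x - x₁⟫ := by
    intro x hx
    set w : X := δ⁻¹ • (x - x₁) with hwdef
    have hxw : x = x₁ + δ • w := by
      rw [hwdef, smul_smul, mul_inv_cancel₀ hδpos.ne', one_smul]; abel
    have hww : w - w₀ = δ⁻¹ • (x - (x₁ - -(δ • w₀))) := by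
      rw [hwdef]
      have : w₀ = δ⁻¹ • (δ • w₀) := by
        rw [smul_smul, inv_mul_cancel₀ hδpos.ne', one_smul]
      conv_lhs => rw [this]
      rw [← smul_sub]
      congr 1
      abel
    have hwε : ‖w - w₀‖ < ε := by
      rw [hww, norm_smul, norm_inv, Real.norm_eq_abs, abs_of_pos hδpos]
      have h1 : ‖x - (x₁ - -(δ • w₀))‖ < ε * δ := by
        have h2 := norm_sub_le x (x₁ - -(δ • w₀))
        have h3 : r ≤ ε * δ / 2 := min_le_left _ _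
        linarith
      rw [inv_mul_lt_iff₀ hδpos]
      linarith
    have hwle : ‖w‖ ≤ 3 / 2 * ‖w₀‖ := by
      have : w = (w - w₀) + w₀ := by abel
      calc ‖w‖ = ‖(w - w₀) + w₀‖ := by rw [← this]
        _ ≤ ‖w - w₀‖ + ‖w₀‖ := norm_add_le _ _
        _ ≤ 3 / 2 * ‖w₀‖ := by linarith
    have h1 := hslope w hwε δ (by
      rw [abs_of_pos hδpos]
      calc δ * ‖w‖ ≤ δ * (3 / 2 * ‖w₀‖) := by gcongr
        _ = 3 / 2 * (δ * ‖w₀‖) := by ring
        _ ≤ 3 / 2 * (τ₁ / 8) := by gcongr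
        _ ≤ τ₁ / 2 := by linarith)
    rw [← hxw] at h1
    have h2 : x - x₁ = δ • w := by
      rw [hwdef, smul_smul, mul_inv_cancel₀ hδpos.ne', one_smul]
    have h3 : ⟪n, x - x₁⟫ = δ * ⟪n, w⟫ := by
      rw [h2, inner_smul_right]
    rw [h1, h3]
  refine ⟨n, ?_⟩
  have hpos : 0 < ε * δ / 2 := by positivity
  have h00 := haff 0 (by rw [norm_zero]; exact hpos)
  filter_upwards [Metric.ball_mem_nhds (0 : X) hpos] with x hx
  rw [mem_ball_zero_iff] at hx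
  rw [haff x hx, h00, inner_sub_right, inner_sub_right, inner_zero_right]
  ring

end Pool.Agent.H16.Star
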